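import Pool.Agent.H59.LV.Patch
import Pool.Agent.H91.GS.Smooth

/-!
# The geodesic flow preserves the symplectic form
-/

set_option autoImplicit false

open scoped InnerProductSpace Topology ContDiff
open Set Filter

namespace Pool.Agent.H59.LV

open Pool.Agent.H91.GE

variable {E F N M : Type*} [NormedAddCommGroup E] [InnerProductSpace ℝ E] [FiniteDimensional ℝ E]
  [NormedAddCommGroup F] [InnerProductSpace ℝ F] [FiniteDimensional ℝ F]
  [NormedAddCommGroup N] [NormedSpace ℝ N] [FiniteDimensional ℝ N]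
  [NormedAddCommGroup M] [NormedSpace ℝ M]

/-- The standard symplectic form of `E × E`. -/
noncomputable def om : LinearMap.BilinForm ℝ (E × E) :=
  LinearMap.mk₂ ℝ (fun Y Z => ⟪Y.1, Z.2⟫_ℝ - ⟪Z.1, Y.2⟫_ℝ)
    (fun a b c => by simp [inner_add_left, inner_add_right]; ring)
    (fun r a b => by simp [inner_smul_left, inner_smul_right]; ring)
    (fun a b c => by simp [inner_add_left, inner_add_right]; ring)
    (fun r a b => by simp [inner_smul_left, inner_smul_right]; ring)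

omit [FiniteDimensional ℝ E] in
theorem om_apply (Y Z : E × E) : om Y Z = ⟪Y.1, Z.2⟫_ℝ - ⟪Z.1, Y.2⟫_ℝ := rfl

/-- Tangent vectors of length less than `2`. -/
def T2 (S : Set E) : Set (E × E) := TSet S ∩ {w | ‖w.2‖ < 2}

variable {S : Set E} {A : E × E → E} {K K₂ : NNReal} {Φ : ℝ → E × E → E × E}

theorem isOpen_lt2 : IsOpen {w : E × E | ‖w.2‖ < 2} := isOpen_lt continuous_snd.norm continuous_const

theorem flow_T2 (h : GFlow F S A K K₂ Φ) (t : ℝ) {w : E × E} (hw : w ∈ T2 S) : Φ t w ∈ T2 S := by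
  obtain ⟨h1, h2⟩ := h.mem hw.1 (le_of_lt hw.2) t
  refine ⟨h1, ?_⟩
  show ‖(Φ t w).2‖ < 2
  rw [h2]; exact hw.2

theorem fderiv_XF (h : GFlow F S A K K₂ Φ) (w Y : E × E) :
    fderiv ℝ (XF A) w Y = (Y.2, fderiv ℝ A w Y) := by
  have h1 : HasFDerivAt (XF A) ((ContinuousLinearMap.snd ℝ E E).prod (fderiv ℝ A w)) w :=
    (ContinuousLinearMap.snd ℝ E E).hasFDerivAt.prodMk
      (h.field.smooth.differentiable (by simp) w).hasFDerivAt
  rw [h1.fderiv]; rfl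

omit [FiniteDimensional ℝ N] in
/-- Symmetry of the derivative of the acceleration. -/
theorem symm_acc (h : GFlow F S A K K₂ Φ) {Ω : Set N} {ψ : N → E} {P : E →L[ℝ] N} {W : Set E}
    (hp : Patch S Ω ψ P W) {z : N × N} (hz : z.1 ∈ Ω) (hz2 : ‖(TP ψ z).2‖ < 2) (a b : N × N) :
    ⟪(fderiv ℝ (TP ψ) z a).1, fderiv ℝ A (TP ψ z) (fderiv ℝ (TP ψ) z b)⟫_ℝ
      = ⟪(fderiv ℝ (TP ψ) z b).1, fderiv ℝ A (TP ψ z) (fderiv ℝ (TP ψ) z a)⟫_ℝ := by
  have hT := hp.tangent h.sub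
  have key : ∀ a b : N × N,
      ⟪fderiv ℝ (fderiv ℝ ψ) z.1 b.1 a.1, A (TP ψ z)⟫_ℝ
        + ⟪fderiv ℝ ψ z.1 a.1, fderiv ℝ A (TP ψ z) (fderiv ℝ (TP ψ) z b)⟫_ℝ = 0 := by
    intro a b
    have h2 : HasFDerivAt (fun z : N × N => fderiv ℝ ψ z.1)
        (fderiv ℝ (fderiv ℝ ψ) z.1 ∘L ContinuousLinearMap.fst ℝ N N) z :=
      HasFDerivAt.comp z (g := fderiv ℝ ψ) (hp.hasFDerivAt_fderiv hz) hasFDerivAt_fst
    have h3 := h2.clm_apply (hasFDerivAt_const a.1 z)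
    have h4 : HasFDerivAt (fun z => A (TP ψ z)) (fderiv ℝ A (TP ψ z) ∘L fderiv ℝ (TP ψ) z) z :=
      (h.field.smooth.differentiable (by simp) (TP ψ z)).hasFDerivAt.comp z
        (hT.hasFDerivAt (show z ∈ {z : N × N | z.1 ∈ Ω} from hz))
    have h5 := h3.inner ℝ h4
    have h6 : (fun z : N × N => ⟪fderiv ℝ ψ z.1 a.1, A (TP ψ z)⟫_ℝ) =ᶠ[𝓝 z] fun _ => 0 := by
      have h7 : ∀ᶠ y in 𝓝 z, TP ψ y ∈ {w : E × E | ‖w.2‖ < 2} :=
        (hT.hasFDerivAt (show z ∈ {z : N × N | z.1 ∈ Ω} from hz)).continuousAt.preimage_mem_nhds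
          (isOpen_lt2.mem_nhds hz2)
      filter_upwards [h7, hT.isOpen.mem_nhds (show z ∈ {z : N × N | z.1 ∈ Ω} from hz)] with y hy hy'
      have h8 := h.inner_A (hT.mem y hy') (le_of_lt hy) (hp.mem_TSet h.sub hy' a.1)
      rw [real_inner_comm]; exact h8
    have h9 := h5.unique ((hasFDerivAt_const (0 : ℝ) z).congr_of_eventuallyEq h6)
    have h10 := congrArg (fun L : N × N →L[ℝ] ℝ => L b) h9
    simp only [ContinuousLinearMap.zero_apply] at h10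
    have h11 : ⟪fderiv ℝ ψ z.1 a.1, fderiv ℝ A (TP ψ z) (fderiv ℝ (TP ψ) z b)⟫_ℝ
        + ⟪fderiv ℝ (fderiv ℝ ψ) z.1 b.1 a.1, A (TP ψ z)⟫_ℝ = 0 := by
      simpa using h10
    rw [add_comm]; exact h11
  have e1 : (fderiv ℝ (TP ψ) z a).1 = fderiv ℝ ψ z.1 a.1 := by rw [hp.fderiv_TP hz]
  have e2 : (fderiv ℝ (TP ψ) z b).1 = fderiv ℝ ψ z.1 b.1 := by rw [hp.fderiv_TP hz]
  rw [e1, e2]
  have k1 := key a b
  have k2 := key b a
  rw [hp.symm2 hz] at k1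
  linarith

omit [NormedAddCommGroup N] [NormedSpace ℝ N] [FiniteDimensional ℝ N] in
/-- The geodesic flow preserves `om` on the tangent spaces of `T2 S`. -/
theorem om_flow (h : GFlow F S A K K₂ Φ) (hdim : Module.finrank ℝ F ≤ Module.finrank ℝ E)
    {O : Set M} {Ψ : M → E × E} {κ : E × E →L[ℝ] M} {V : Set (E × E)}
    (hp : Patch (T2 S) O Ψ κ V) {z : M} (hz : z ∈ O) (a b : M) (t : ℝ) :
    om (fderiv ℝ (Φ t) (Ψ z) (fderiv ℝ Ψ z a)) (fderiv ℝ (Φ t) (Ψ z) (fderiv ℝ Ψ z b))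
      = om (fderiv ℝ Ψ z a) (fderiv ℝ Ψ z b) := by
  set w := Ψ z with hw
  set Y₀ := fderiv ℝ Ψ z a with hY₀
  set Z₀ := fderiv ℝ Ψ z b with hZ₀
  have hY := fun s => h.flow.deriv_fderiv h.vf w Y₀ s
  have hZ := fun s => h.flow.deriv_fderiv h.vf w Z₀ s
  have hd : ∀ s, HasDerivAt (fun s => om (fderiv ℝ (Φ s) w Y₀) (fderiv ℝ (Φ s) w Z₀)) 0 s := by
    intro s
    set Y := fderiv ℝ (Φ s) w Y₀ with hYs
    set Z := fderiv ℝ (Φ s) w Z₀ with hZs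
    have d1 := (ContinuousLinearMap.fst ℝ E E).hasFDerivAt.comp_hasDerivAt s (hY s)
    have d2 := (ContinuousLinearMap.snd ℝ E E).hasFDerivAt.comp_hasDerivAt s (hY s)
    have d3 := (ContinuousLinearMap.fst ℝ E E).hasFDerivAt.comp_hasDerivAt s (hZ s)
    have d4 := (ContinuousLinearMap.snd ℝ E E).hasFDerivAt.comp_hasDerivAt s (hZ s)
    have d5 := (d1.inner ℝ d4).sub (d3.inner ℝ d2)
    have hval : ⟪Y.1, fderiv ℝ A (Φ s w) Z⟫_ℝ = ⟪Z.1, fderiv ℝ A (Φ s w) Y⟫_ℝ := by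
      have hwT : Φ s w ∈ T2 S := flow_T2 h s (hp.mem z hz)
      obtain ⟨U, hU, f, hf⟩ := h.sub (Φ s w).1 (fst_mem_TSet hwT.1)
      let N' := EuclideanSpace ℝ (Fin (Module.finrank ℝ E - Module.finrank ℝ F))
      have hdN : Module.finrank ℝ E = Module.finrank ℝ F + Module.finrank ℝ N' := by
        rw [finrank_euclideanSpace_fin]; omega
      obtain ⟨Ω, ψ, P, W, hc, hW⟩ := exists_patch (N := N') hdN hf hU
      have hc2 : Patch (T2 S) _ (TP ψ) _ _ := (hc.tangent h.sub).inter isOpen_lt2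
      obtain ⟨h1, h2, -, h4⟩ := hp.trans hc2 (h.flow.differentiable h.vf s)
        (fun w hw => flow_T2 h s hw) hz (show (Φ s (Ψ z)).1 ∈ W from hW)
      have hYe : Y = fderiv ℝ (TP ψ) ((P.prodMap P) (Φ s (Ψ z))) ((P.prodMap P) Y) := (h4 a).symm
      have hZe : Z = fderiv ℝ (TP ψ) ((P.prodMap P) (Φ s (Ψ z))) ((P.prodMap P) Z) := (h4 b).symm
      have h5 := symm_acc h hc (z := (P.prodMap P) (Φ s (Ψ z))) h1.1 h1.2
        ((P.prodMap P) Y) ((P.prodMap P) Z)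
      rw [← hYe, ← hZe, h2] at h5
      exact h5
    have h0 : (⟪Y.1, (fderiv ℝ (XF A) (Φ s w) Z).2⟫_ℝ + ⟪(fderiv ℝ (XF A) (Φ s w) Y).1, Z.2⟫_ℝ)
        - (⟪Z.1, (fderiv ℝ (XF A) (Φ s w) Y).2⟫_ℝ + ⟪(fderiv ℝ (XF A) (Φ s w) Z).1, Y.2⟫_ℝ) = 0 := by
      rw [fderiv_XF h, fderiv_XF h]
      show (⟪Y.1, fderiv ℝ A (Φ s w) Z⟫_ℝ + ⟪Y.2, Z.2⟫_ℝ)
        - (⟪Z.1, fderiv ℝ A (Φ s w) Y⟫_ℝ + ⟪Z.2, Y.2⟫_ℝ) = 0
      rw [hval, real_inner_comm Y.2 Z.2]; ring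
    rw [← h0]
    exact d5
  have hc := is_const_of_deriv_eq_zero (fun s => (hd s).differentiableAt) (fun s => (hd s).deriv) t 0
  have h0 : ∀ Y, fderiv ℝ (Φ 0) w Y = Y := by
    intro Y
    have : Φ 0 = fun w => w := funext fun w => h.flow.zero w
    rw [this, fderiv_id']; rfl
  rw [h0, h0] at hc
  exact hc

omit [FiniteDimensional ℝ E] [FiniteDimensional ℝ N] in
/-- Nondegeneracy of `om` on the tangent space. -/
theorem om_nondeg {Ω : Set N} {ψ : N → E} {P : E →L[ℝ] N} {W : Set E}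
    (hp : Patch S Ω ψ P W) {z : N × N} (hz : z.1 ∈ Ω) {a : N × N}
    (ha : ∀ b, om (fderiv ℝ (TP ψ) z a) (fderiv ℝ (TP ψ) z b) = 0) : a = 0 := by
  have h0 : ∀ c : N, fderiv ℝ (TP ψ) z (0, c) = (0, fderiv ℝ ψ z.1 c) := by
    intro c
    rw [hp.fderiv_TP hz]
    simp
  have hinj : ∀ c : N, fderiv ℝ ψ z.1 c = 0 → c = 0 := by
    intro c hc
    have := hp.κ_fderiv hz c
    rw [hc, map_zero] at this
    exact this.symm
  have h1 : a.1 = 0 := by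
    refine hinj _ ?_
    have h2 := ha (0, a.1)
    rw [h0, om_apply, inner_zero_left, sub_zero] at h2
    rw [hp.fderiv_TP hz] at h2
    exact inner_self_eq_zero.1 h2
  have h2 : a.2 = 0 := by
    refine hinj _ ?_
    have h3 := ha (a.2, 0)
    have h4 : a = (0, a.2) := Prod.ext h1 rfl
    rw [h4, h0, om_apply, inner_zero_left, zero_sub, neg_eq_zero] at h3
    rw [hp.fderiv_TP hz] at h3
    exact inner_self_eq_zero.1 h3
  exact Prod.ext h1 h2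

end Pool.Agent.H59.LV
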