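import Pool.Agent.H59.LV.Measure
import Pool.Agent.H59.LV.Sympl

/-!
# The geodesic flow of a compact submanifold has a finite invariant measure of full support, and
is non-wandering
-/

set_option autoImplicit false

open scoped InnerProductSpace Topology
open Set Filter MeasureTheory

namespace Pool.Agent.H59.LV

open Pool.Agent.H91.GE

variable {E F : Type*} [NormedAddCommGroup E] [InnerProductSpace ℝ E] [FiniteDimensional ℝ E]
  [NormedAddCommGroup F] [InnerProductSpace ℝ F] [FiniteDimensional ℝ F]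

variable {S : Set E} {A : E × E → E} {K K₂ : NNReal} {Φ : ℝ → E × E → E × E}

/-- The standard symplectic form, as a continuous bilinear map. -/
noncomputable def omL : (E × E) →L[ℝ] (E × E) →L[ℝ] ℝ :=
  LinearMap.mkContinuous₂ om 2 (by
    intro Y Z
    rw [om_apply, Real.norm_eq_abs]
    have h1 := abs_real_inner_le_norm Y.1 Z.2
    have h2 := abs_real_inner_le_norm Z.1 Y.2
    have h3 : ‖Y.1‖ * ‖Z.2‖ ≤ ‖Y‖ * ‖Z‖ :=
      mul_le_mul (norm_fst_le Y) (norm_snd_le Z) (norm_nonneg _) (norm_nonneg _)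
    have h4 : ‖Z.1‖ * ‖Y.2‖ ≤ ‖Y‖ * ‖Z‖ := by
      rw [mul_comm]
      exact mul_le_mul (norm_snd_le Y) (norm_fst_le Z) (norm_nonneg _) (norm_nonneg _)
    have h5 := abs_sub ⟪Y.1, Z.2⟫_ℝ ⟪Z.1, Y.2⟫_ℝ
    linarith)

omit [FiniteDimensional ℝ E] in
theorem omL_apply (Y Z : E × E) : omL Y Z = om Y Z := rfl

/-- Tangent vectors of length at most `r`. -/
def Xr (S : Set E) (r : ℝ) : Set (E × E) := TSet S ∩ {w | ‖w.2‖ ≤ r}

theorem isCompact_Xr (hS : IsCompact S) (hsub : IsSub F S) (r : ℝ) : IsCompact (Xr S r) := by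
  have h1 : IsCompact (S ×ˢ Metric.closedBall (0 : E) r) := hS.prod (isCompact_closedBall 0 r)
  refine h1.of_isClosed_subset
    ((isClosed_TSet hS hsub).inter (isClosed_le continuous_snd.norm continuous_const)) ?_
  rintro ⟨q, v⟩ ⟨h2, h3⟩
  exact ⟨fst_mem_TSet h2, by simpa using h3⟩

section chart

variable {N ι : Type*} [NormedAddCommGroup N] [NormedSpace ℝ N] [FiniteDimensional ℝ N]
  [Fintype ι] [DecidableEq ι]

theorem exists_tangent_patch (h : GFlow F S A K K₂ Φ)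
    (hdim : Module.finrank ℝ E = Module.finrank ℝ F + Module.finrank ℝ N) {w : E × E}
    (hw : w ∈ TSet S) :
    ∃ (Ω : Set N) (ψ : N → E) (P : E →L[ℝ] N) (W : Set E),
      Patch S Ω ψ P W ∧ w.1 ∈ W ∧ Patch (T2 S) ({z | z.1 ∈ Ω} ∩ TP ψ ⁻¹' {w | ‖w.2‖ < 2})
        (TP ψ) (P.prodMap P) {w : E × E | w.1 ∈ W} := by
  obtain ⟨U, hU, f, hf⟩ := h.sub w.1 (fst_mem_TSet hw)
  obtain ⟨Ω, ψ, P, W, hc, hW⟩ := exists_patch (N := N) hdim hf hU
  exact ⟨Ω, ψ, P, W, hc, hW, (hc.tangent h.sub).inter isOpen_lt2⟩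

/-- The local description of the Liouville measure. -/
def IsLocal [MeasurableSpace E] [BorelSpace E] [MeasurableSpace N] [BorelSpace N] (S : Set E)
    (r : ℝ) (b : Module.Basis ι ℝ (N × N)) (ν : Measure (N × N)) (μ : Measure (E × E)) : Prop :=
  ∀ (O : Set (N × N)) (Ψ : N × N → E × E) (κ : E × E →L[ℝ] N × N) (V : Set (E × E)),
    Patch (T2 S) O Ψ κ V → ∀ C, MeasurableSet C → C ⊆ V → C ⊆ Xr S r →
      μ C = mloc (omL : (E × E) →L[ℝ] (E × E) →L[ℝ] ℝ) b ν O Ψ C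

variable [MeasurableSpace E] [BorelSpace E] [MeasurableSpace N] [BorelSpace N]

theorem dens_omL_pos {Ω : Set N} {ψ : N → E} {P : E →L[ℝ] N} {W : Set E}
    (hp : Patch S Ω ψ P W) (b : Module.Basis ι ℝ (N × N)) {z : N × N} (hz : z.1 ∈ Ω) :
    0 < dens (omL : (E × E) →L[ℝ] (E × E) →L[ℝ] ℝ) b (fderiv ℝ (TP ψ) z) :=
  dens_pos (G := E × E) (M := N × N) omL b (L := fderiv ℝ (TP ψ) z)
    fun a ha => om_nondeg hp hz fun c => ha c

theorem exists_local (h : GFlow F S A K K₂ Φ)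
    (hdim : Module.finrank ℝ E = Module.finrank ℝ F + Module.finrank ℝ N) {r : ℝ} (hr : r < 2)
    (b : Module.Basis ι ℝ (N × N)) (ν : Measure (N × N)) [ν.IsAddHaarMeasure] :
    ∃ μ : Measure (E × E), IsFiniteMeasure μ ∧ μ (Xr S r)ᶜ = 0 ∧ IsLocal S r b ν μ := by
  have hXT : Xr S r ⊆ T2 S := fun w hw => ⟨hw.1, lt_of_le_of_lt hw.2 hr⟩
  have hX := isCompact_Xr h.compact h.sub r
  have hloc : ∀ w ∈ Xr S r, ∃ (O : Set (N × N)) (Ψ : N × N → E × E)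
      (κ : E × E →L[ℝ] N × N) (V : Set (E × E)), Patch (T2 S) O Ψ κ V ∧ w ∈ V := by
    intro w hw
    obtain ⟨Ω, ψ, P, W, -, hW, hp⟩ := exists_tangent_patch h hdim hw.1
    exact ⟨_, _, _, _, hp, hW⟩
  exact exists_measure (G := E × E) (M := N × N) omL b ν hX hXT hloc

theorem pos_of_local (h : GFlow F S A K K₂ Φ)
    (hdim : Module.finrank ℝ E = Module.finrank ℝ F + Module.finrank ℝ N) {r : ℝ} (hr : r < 2)
    (b : Module.Basis ι ℝ (N × N)) (ν : Measure (N × N)) [ν.IsAddHaarMeasure]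
    {μ : Measure (E × E)} (hμ : IsLocal S r b ν μ) {O : Set (E × E)} (hO : IsOpen O) {w : E × E}
    (hwO : w ∈ O) (hwS : w ∈ TSet S) (hwr : ‖w.2‖ < r) : 0 < μ O := by
  have hX := isCompact_Xr h.compact h.sub r
  obtain ⟨Ω, ψ, P, W, hc, hW, hp⟩ := exists_tangent_patch h hdim hwS
  have hwT : w ∈ T2 S := ⟨hwS, hwr.trans hr⟩
  have hwV : w ∈ {w : E × E | w.1 ∈ W} := hW
  have hI : IsOpen {w : E × E | ‖w.2‖ < r} := isOpen_lt continuous_snd.norm continuous_const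
  have hIX : T2 S ∩ {w : E × E | ‖w.2‖ < r} ⊆ Xr S r :=
    fun w hw => ⟨hw.1.1, le_of_lt (show ‖w.2‖ < r from hw.2)⟩
  exact measure_pos (G := E × E) (M := N × N) omL b ν hX.isClosed.measurableSet hμ hp
    (fun z hz => dens_omL_pos hc b hz.1) hI hIX hO hwT hwV hwr hwO

theorem measurePreserving_of_local (h : GFlow F S A K K₂ Φ)
    (hdim : Module.finrank ℝ E = Module.finrank ℝ F + Module.finrank ℝ N) {r : ℝ} (hr : r < 2)
    (b : Module.Basis ι ℝ (N × N)) (ν : Measure (N × N)) [ν.IsAddHaarMeasure]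
    {μ : Measure (E × E)} [IsFiniteMeasure μ] (hμX : μ (Xr S r)ᶜ = 0) (hμ : IsLocal S r b ν μ)
    (t : ℝ) : MeasurePreserving (Φ t) μ μ := by
  have hXT : Xr S r ⊆ T2 S := fun w hw => ⟨hw.1, lt_of_le_of_lt hw.2 hr⟩
  have hX := isCompact_Xr h.compact h.sub r
  have hloc : ∀ w ∈ Xr S r, ∃ (O : Set (N × N)) (Ψ : N × N → E × E)
      (κ : E × E →L[ℝ] N × N) (V : Set (E × E)), Patch (T2 S) O Ψ κ V ∧ w ∈ V := by
    intro w hw
    obtain ⟨Ω, ψ, P, W, -, hW, hp⟩ := exists_tangent_patch h hdim hw.1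
    exact ⟨_, _, _, _, hp, hW⟩
  have hinv : ∀ s t w, s + t = 0 → Φ s (Φ t w) = w := by
    intro s t w hst
    rw [← h.flow.add h.vf, hst, h.flow.zero]
  have hXX : ∀ t, ∀ w ∈ Xr S r, Φ t w ∈ Xr S r := by
    intro t w hw
    obtain ⟨k1, k2⟩ := h.mem hw.1 (le_of_lt (lt_of_le_of_lt hw.2 hr)) t
    refine ⟨k1, ?_⟩
    show ‖(Φ t w).2‖ ≤ r
    rw [k2]; exact hw.2
  have i1 : ∀ w ∈ T2 S, Φ (-t) (Φ t w) = w := fun w _ => hinv _ _ _ (neg_add_cancel t)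
  have i2 : ∀ w ∈ T2 S, Φ t (Φ (-t) w) = w := fun w _ => hinv _ _ _ (add_neg_cancel t)
  have hB : ∀ (O : Set (N × N)) (Ψ : N × N → E × E)
      (κ : E × E →L[ℝ] N × N) (V : Set (E × E)), Patch (T2 S) O Ψ κ V →
      ∀ z ∈ O, ∀ a c, (omL : (E × E) →L[ℝ] (E × E) →L[ℝ] ℝ) (fderiv ℝ (Φ t) (Ψ z) (fderiv ℝ Ψ z a))
        (fderiv ℝ (Φ t) (Ψ z) (fderiv ℝ Ψ z c))
      = (omL : (E × E) →L[ℝ] (E × E) →L[ℝ] ℝ) (fderiv ℝ Ψ z a) (fderiv ℝ Ψ z c) := by
    intro O Ψ κ V hp z hz a c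
    rw [omL_apply, omL_apply]
    exact om_flow h (by omega) hp hz a c t
  exact measurePreserving (G := E × E) (M := N × N) omL b ν hX hXT hloc hμX hμ
    (h.flow.differentiable h.vf t)
    (h.flow.differentiable h.vf (-t)).continuous (fun w hw => flow_T2 h t hw)
    (fun w hw => flow_T2 h (-t) hw) i1 i2 (hXX t) (hXX (-t)) hB

end chart

theorem exists_invariant_measure [MeasurableSpace E] [BorelSpace E] (h : GFlow F S A K K₂ Φ)
    (hdim : Module.finrank ℝ F ≤ Module.finrank ℝ E) {r : ℝ} (hr : r < 2) :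
    ∃ μ : Measure (E × E), IsFiniteMeasure μ ∧ μ (Xr S r)ᶜ = 0 ∧
      (∀ O : Set (E × E), IsOpen O → ∀ w ∈ O, w ∈ TSet S → ‖w.2‖ < r → 0 < μ O) ∧
      ∀ t, MeasurePreserving (Φ t) μ μ := by
  obtain ⟨N, i1, i2, i3, i4, i5, hN⟩ : ∃ (N : Type) (_ : NormedAddCommGroup N)
      (_ : NormedSpace ℝ N) (_ : FiniteDimensional ℝ N) (_ : MeasurableSpace N)
      (_ : BorelSpace N), Module.finrank ℝ E = Module.finrank ℝ F + Module.finrank ℝ N :=
    ⟨EuclideanSpace ℝ (Fin (Module.finrank ℝ E - Module.finrank ℝ F)), inferInstance,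
      inferInstance, inferInstance, inferInstance, inferInstance, by
        rw [finrank_euclideanSpace_fin]; omega⟩
  obtain ⟨ν, hν⟩ : ∃ ν : Measure (N × N), ν.IsAddHaarMeasure := ⟨Measure.addHaar, inferInstance⟩
  obtain ⟨n, ⟨b⟩⟩ : ∃ n : ℕ, Nonempty (Module.Basis (Fin n) ℝ (N × N)) :=
    ⟨_, ⟨Module.finBasis ℝ (N × N)⟩⟩
  obtain ⟨μ, h1, h2, h3⟩ := exists_local h hN hr b ν
  exact ⟨μ, h1, h2, fun O hO w hw hwS hwr => pos_of_local h hN hr b ν h3 hO hw hwS hwr,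
    fun t => measurePreserving_of_local h hN hr b ν h2 h3 t⟩

/-- The geodesic flow of a compact submanifold is non-wandering. -/
theorem nonwandering (h : GFlow F S A K K₂ Φ) (hdim : Module.finrank ℝ F ≤ Module.finrank ℝ E)
    {w₀ : E × E} (hw₀ : w₀ ∈ TSet S) (h₀ : ‖w₀.2‖ < 2) {V : Set (E × E)} (hV : V ∈ 𝓝 w₀) (T : ℝ) :
    ∃ w ∈ V, w ∈ TSet S ∧ ‖w.2‖ < 2 ∧ ∃ t > T, Φ t w ∈ V := by
  borelize E
  obtain ⟨r, hr1, hr2⟩ := exists_between h₀
  obtain ⟨μ, h1, h2, h3, h4⟩ := exists_invariant_measure h hdim hr2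
  have hX := (isCompact_Xr h.compact h.sub r).isClosed.measurableSet
  set O := interior V with hO
  set s := O ∩ Xr S r with hs
  have hsm : MeasurableSet s := isOpen_interior.measurableSet.inter hX
  have hpos : μ s ≠ 0 := by
    have h5 := h3 O isOpen_interior w₀ (mem_interior_iff_mem_nhds.2 hV) hw₀ hr1
    have h6 : μ O = μ s := by
      rw [← measure_inter_add_sdiff O hX, measure_mono_null (sdiff_subset_compl _ _) h2, add_zero]
    rw [← h6]; exact h5.ne'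
  set T' := max T 0 + 1 with hT'
  have hT'0 : 0 < T' := by
    have := le_max_right T 0
    rw [hT']; linarith
  have hTT' : T < T' := by
    have := le_max_left T 0
    rw [hT']; linarith
  obtain ⟨x, hx, m, hm, hxm⟩ := (h4 T').exists_mem_iterate_mem hsm.nullMeasurableSet hpos
  have hit : ∀ m : ℕ, (Φ T')^[m] x = Φ (m * T') x := by
    intro m
    induction m with
    | zero => simp [h.flow.zero]
    | succ m ih =>
      rw [Function.iterate_succ_apply', ih, ← h.flow.add h.vf]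
      congr 1
      push_cast; ring
  refine ⟨x, interior_subset hx.1, hx.2.1, lt_of_le_of_lt hx.2.2 hr2, m * T', ?_, ?_⟩
  · have h7 : (1 : ℝ) ≤ m := by
      have : 1 ≤ m := Nat.one_le_iff_ne_zero.2 hm
      exact_mod_cast this
    have : T' ≤ m * T' := by nlinarith
    linarith
  · rw [← hit]; exact interior_subset hxm.1

/-- Homogeneity of the geodesic flow. -/
theorem flow_smul (h : GFlow F S A K K₂ Φ) {w : E × E} (hw : w ∈ TSet S) (hw2 : ‖w.2‖ ≤ 2) {c : ℝ}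
    (hc : ‖c • w.2‖ ≤ 2) (t : ℝ) :
    Φ t (w.1, c • w.2) = ((Φ (c * t) w).1, c • (Φ (c * t) w).2) := by
  obtain ⟨h1, h2⟩ := h.isGeo hw hw2
  have h3 := h1.affine 0 c
  have h4 : ∀ s, deriv (fun s => (Φ (0 + c * s) w).1) s = c • (Φ (c * s) w).2 := by
    intro s
    have h5 := congrFun (deriv_affine h1 0 c) s
    simp only [zero_add] at h5 ⊢
    rw [h5, h2]
  have h5 := h.of_geo h3 (by rw [h4]; simpa [h.flow.zero] using hc) t
  rw [h4, h4] at h5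
  simp only [zero_add, mul_zero, h.flow.zero] at h5
  exact h5.symm

/-- Recurrence with the same speed. -/
theorem nonwandering_speed (h : GFlow F S A K K₂ Φ)
    (hdim : Module.finrank ℝ F ≤ Module.finrank ℝ E)
    {w₀ : E × E} (hw₀ : w₀ ∈ TSet S) (h₀ : ‖w₀.2‖ < 2) (h₀' : w₀.2 ≠ 0) {V : Set (E × E)}
    (hV : V ∈ 𝓝 w₀) (T : ℝ) :
    ∃ w ∈ V, w ∈ TSet S ∧ ‖w.2‖ = ‖w₀.2‖ ∧ ∃ t > T, Φ t w ∈ V := by
  set s₀ := ‖w₀.2‖ with hs₀
  have hs : 0 < s₀ := norm_pos_iff.2 h₀'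
  set φ : E × E → E × E := fun w => (w.1, (s₀ / ‖w.2‖) • w.2) with hφ
  have hφc : ContinuousAt φ w₀ := by
    refine continuousAt_fst.prodMk (ContinuousAt.smul ?_ continuousAt_snd)
    exact continuousAt_const.div continuousAt_snd.norm hs.ne'
  have hφ0 : φ w₀ = w₀ := by
    show (w₀.1, (s₀ / ‖w₀.2‖) • w₀.2) = w₀
    rw [← hs₀, div_self hs.ne', one_smul]
  have hV1 : φ ⁻¹' V ∈ 𝓝 w₀ := hφc.preimage_mem_nhds (by rw [hφ0]; exact hV)
  have hV2 : {w : E × E | s₀ / 2 < ‖w.2‖} ∈ 𝓝 w₀ :=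
    (isOpen_lt continuous_const continuous_snd.norm).mem_nhds (by
      show s₀ / 2 < ‖w₀.2‖
      rw [← hs₀]; linarith)
  obtain ⟨w, hwV, hwS, hw2, t, ht, htV⟩ := nonwandering h hdim hw₀ h₀ (inter_mem hV1 hV2)
    (2 * max T 0)
  have hwp : 0 < ‖w.2‖ := lt_trans (by linarith) (show s₀ / 2 < ‖w.2‖ from hwV.2)
  have hwh : s₀ / 2 < ‖w.2‖ := hwV.2
  set c := s₀ / ‖w.2‖ with hc
  have hcp : 0 < c := div_pos hs hwp
  have hc2 : c < 2 := by
    rw [hc, div_lt_iff₀ hwp]; linarith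
  have hcn : ‖c • w.2‖ = s₀ := by
    rw [norm_smul, Real.norm_eq_abs, abs_of_pos hcp, hc, div_mul_cancel₀ _ hwp.ne']
  have hcS : (w.1, c • w.2) ∈ TSet S := by
    obtain ⟨U, hU, f, hf⟩ := h.sub w.1 (fst_mem_TSet hwS)
    have h1 := (mem_TSet_iff hf hU).1 hwS
    refine (mem_TSet_iff hf hU).2 ⟨h1.1, ?_⟩
    rw [map_smul, h1.2, smul_zero]
  refine ⟨(w.1, c • w.2), hwV.1, hcS, hcn, t / c, ?_, ?_⟩
  · have h1 : 0 ≤ max T 0 := le_max_right T 0
    have h2 : T ≤ max T 0 := le_max_left T 0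
    have h3 : 0 < t := by linarith
    have h4 : t / 2 < t / c := div_lt_div_of_pos_left h3 hcp hc2
    linarith
  · rw [flow_smul h hwS hw2.le (by rw [hcn]; exact h₀.le), mul_div_cancel₀ _ hcp.ne']
    obtain ⟨-, h6⟩ := h.mem hwS hw2.le t
    have h5 : φ (Φ t w) ∈ V := htV.1
    have h7 : φ (Φ t w) = ((Φ t w).1, c • (Φ t w).2) := by
      show ((Φ t w).1, (s₀ / ‖(Φ t w).2‖) • (Φ t w).2) = _
      rw [h6]
    rw [h7] at h5
    exact h5

end Pool.Agent.H59.LV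

namespace Pool.Agent.H91.GE

open Pool.Agent.H59.LV

variable {E F : Type*} [NormedAddCommGroup E] [InnerProductSpace ℝ E] [FiniteDimensional ℝ E]
  [NormedAddCommGroup F] [InnerProductSpace ℝ F] [FiniteDimensional ℝ F]

/-- **The geodesic flow of a compact submanifold is non-wandering.** -/
theorem GFlow.nonwandering {S : Set E} {A : E × E → E} {K K₂ : NNReal} {Φ : ℝ → E × E → E × E}
    (h : GFlow F S A K K₂ Φ) {n : ℕ} (hdim : Module.finrank ℝ E = n + Module.finrank ℝ F)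
    {w₀ : E × E} (hw₀ : w₀ ∈ TSet S) (h₀ : ‖w₀.2‖ < 2) {V : Set (E × E)} (hV : V ∈ 𝓝 w₀) (T : ℝ) :
    ∃ w ∈ V, w ∈ TSet S ∧ ∃ t > T, Φ t w ∈ V := by
  obtain ⟨w, h1, h2, -, t, h3, h4⟩ := Pool.Agent.H59.LV.nonwandering h (by omega) hw₀ h₀ hV T
  exact ⟨w, h1, h2, t, h3, h4⟩

/-- Recurrence with the same speed. -/
theorem GFlow.nonwandering_speed {S : Set E} {A : E × E → E} {K K₂ : NNReal}
    {Φ : ℝ → E × E → E × E} (h : GFlow F S A K K₂ Φ) {n : ℕ}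
    (hdim : Module.finrank ℝ E = n + Module.finrank ℝ F) {w₀ : E × E} (hw₀ : w₀ ∈ TSet S)
    (h₀ : ‖w₀.2‖ < 2) (h₀' : w₀.2 ≠ 0) {V : Set (E × E)} (hV : V ∈ 𝓝 w₀) (T : ℝ) :
    ∃ w ∈ V, w ∈ TSet S ∧ ‖w.2‖ = ‖w₀.2‖ ∧ ∃ t > T, Φ t w ∈ V :=
  Pool.Agent.H59.LV.nonwandering_speed h (by omega) hw₀ h₀ h₀' hV T

end Pool.Agent.H91.GE
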