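import Pool.Agent.H59.LV.Patch

/-!
# The density of a bilinear form in a patch, and the local measure
-/

set_option autoImplicit false

open scoped Topology ContDiff ENNReal
open Set Filter MeasureTheory

namespace Pool.Agent.H59.LV

variable {G M ι : Type*} [NormedAddCommGroup G] [NormedSpace ℝ G]
  [NormedAddCommGroup M] [NormedSpace ℝ M] [Fintype ι] [DecidableEq ι]

/-- The square root of the determinant of the Gram matrix of `B` on the range of `L`. -/
noncomputable def dens (B : G →L[ℝ] G →L[ℝ] ℝ) (b : Module.Basis ι ℝ M) (L : M →L[ℝ] G) : ℝ :=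
  Real.sqrt |(Matrix.of fun i j => B (L (b i)) (L (b j))).det|

variable (B : G →L[ℝ] G →L[ℝ] ℝ) (b : Module.Basis ι ℝ M)

theorem dens_nonneg (L : M →L[ℝ] G) : 0 ≤ dens B b L := Real.sqrt_nonneg _

theorem dens_congr {L L' : M →L[ℝ] G} (h : ∀ a c, B (L a) (L c) = B (L' a) (L' c)) :
    dens B b L = dens B b L' := by
  unfold dens
  have : (Matrix.of fun i j => B (L (b i)) (L (b j)))
      = (Matrix.of fun i j => B (L' (b i)) (L' (b j))) := by
    ext i j; exact h _ _
  rw [this]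

theorem dens_comp (L : M →L[ℝ] G) (D : M →L[ℝ] M) :
    dens B b (L ∘L D) = |D.det| * dens B b L := by
  have h1 : (Matrix.of fun i j => B ((L ∘L D) (b i)) ((L ∘L D) (b j)))
      = (LinearMap.toMatrix b b D.toLinearMap).transpose
        * (Matrix.of fun i j => B (L (b i)) (L (b j))) * (LinearMap.toMatrix b b D.toLinearMap) := by
    ext i j
    have h2 : ∀ k, D (b k) = ∑ l, LinearMap.toMatrix b b D.toLinearMap l k • b l := by
      intro k
      have := b.sum_repr (D (b k))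
      rw [← this]
      refine Finset.sum_congr rfl fun l _ => ?_
      rw [LinearMap.toMatrix_apply]
      simp
    simp only [Matrix.of_apply, Matrix.mul_apply, Matrix.transpose_apply,
      ContinuousLinearMap.comp_apply]
    rw [h2 i, h2 j]
    simp only [map_sum, map_smul, ContinuousLinearMap.sum_apply, ContinuousLinearMap.smul_apply,
      smul_eq_mul, Finset.sum_mul, Finset.mul_sum]
    refine Finset.sum_congr rfl fun l _ => Finset.sum_congr rfl fun k _ => ?_
    ring
  unfold dens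
  rw [h1, Matrix.det_mul, Matrix.det_mul, Matrix.det_transpose, LinearMap.det_toMatrix]
  have h3 : |LinearMap.det D.toLinearMap * (Matrix.of fun i j => B (L (b i)) (L (b j))).det
      * LinearMap.det D.toLinearMap|
      = (|D.det|) ^ 2 * |(Matrix.of fun i j => B (L (b i)) (L (b j))).det| := by
    rw [abs_mul, abs_mul]
    show |D.det| * _ * |D.det| = _
    ring
  rw [h3, Real.sqrt_mul (sq_nonneg _), Real.sqrt_sq (abs_nonneg _)]

theorem continuous_dens : Continuous (dens B b) := by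
  unfold dens
  refine (Continuous.abs ?_).sqrt
  refine Continuous.matrix_det ?_
  refine continuous_matrix fun i j => ?_
  have h1 : ∀ k, Continuous fun L : M →L[ℝ] G => L (b k) := fun k =>
    (ContinuousLinearMap.apply ℝ G (b k)).continuous
  exact (B.continuous.comp (h1 i)).clm_apply (h1 j)

theorem dens_pos {L : M →L[ℝ] G} (h : ∀ a, (∀ c, B (L a) (L c) = 0) → a = 0) :
    0 < dens B b L := by
  refine Real.sqrt_pos.2 (abs_pos.2 ?_)
  intro h0
  have h0' : (Matrix.of fun i j => B (L (b i)) (L (b j))).transpose.det = 0 := by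
    rw [Matrix.det_transpose]; exact h0
  obtain ⟨v, hv, hv0⟩ := Matrix.exists_mulVec_eq_zero_iff.2 h0'
  refine hv ?_
  have h1 : (∑ i, v i • b i) = 0 := by
    refine h _ fun c => ?_
    rw [← b.sum_repr c]
    simp only [map_sum, map_smul, ContinuousLinearMap.sum_apply, ContinuousLinearMap.smul_apply,
      smul_eq_mul]
    refine Finset.sum_eq_zero fun j _ => ?_
    have h2 := congrFun hv0 j
    simp only [Matrix.mulVec, dotProduct, Matrix.transpose_apply, Matrix.of_apply,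
      Pi.zero_apply] at h2
    have h3 : ∑ i, v i * B (L (b i)) (L (b j)) = 0 := by
      rw [← h2]; exact Finset.sum_congr rfl fun i _ => mul_comm _ _
    rw [h3, mul_zero]
  funext i
  exact Fintype.linearIndependent_iff.1 b.linearIndependent v h1 i

section measure

variable [MeasurableSpace G] [BorelSpace G] [MeasurableSpace M] [BorelSpace M]
  (μM : Measure M)

/-- The local measure on `T`. -/
noncomputable def mloc (O : Set M) (Ψ : M → G) : Measure G :=
  Measure.map Ψ ((μM.restrict O).withDensity fun z => ENNReal.ofReal (dens B b (fderiv ℝ Ψ z)))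

variable {T : Set G} {O O' : Set M} {Ψ Ψ' : M → G} {κ κ' : G →L[ℝ] M} {V V' : Set G}

omit [Fintype ι] [DecidableEq ι] [BorelSpace M] in
theorem measurableSet_inter_preimage [OpensMeasurableSpace M] {f : M → G} (hO : IsOpen O)
    (hf : ContinuousOn f O) {C : Set G} (hC : MeasurableSet C) : MeasurableSet (f ⁻¹' C ∩ O) := by
  classical
  have h1 : Measurable (O.piecewise f (fun _ => (0 : G))) :=
    hf.measurable_piecewise continuousOn_const hO.measurableSet
  have h2 : f ⁻¹' C ∩ O = (O.piecewise f (fun _ => (0 : G))) ⁻¹' C ∩ O := by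
    ext z
    constructor
    · rintro ⟨h3, h4⟩
      refine ⟨?_, h4⟩
      show O.piecewise f (fun _ => (0 : G)) z ∈ C
      rw [piecewise_eq_of_mem _ _ _ h4]; exact h3
    · rintro ⟨h3, h4⟩
      refine ⟨?_, h4⟩
      have h5 : O.piecewise f (fun _ => (0 : G)) z ∈ C := h3
      rw [piecewise_eq_of_mem _ _ _ h4] at h5; exact h5
  rw [h2]
  exact (h1 hC).inter hO.measurableSet

theorem Patch.mloc_apply [SFinite μM] [SecondCountableTopology M] (h : Patch T O Ψ κ V) {C : Set G}
    (hC : MeasurableSet C) : mloc B b μM O Ψ C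
      = ∫⁻ z in Ψ ⁻¹' C ∩ O, ENNReal.ofReal (dens B b (fderiv ℝ Ψ z)) ∂μM := by
  have h1 : AEMeasurable Ψ ((μM.restrict O).withDensity
      fun z => ENNReal.ofReal (dens B b (fderiv ℝ Ψ z))) :=
    (h.smooth.continuousOn.aemeasurable h.isOpen.measurableSet).mono_ac
      (withDensity_absolutelyContinuous _ _)
  unfold mloc
  rw [Measure.map_apply_of_aemeasurable h1 hC, withDensity_apply',
    Measure.restrict_restrict' h.isOpen.measurableSet]

/-- The local measure is compatible with maps which preserve `B`. -/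
theorem mloc_eq [FiniteDimensional ℝ M] [μM.IsAddHaarMeasure] (h : Patch T O Ψ κ V)
    (h' : Patch T O' Ψ' κ' V') {g g' : G → G} (hg : Differentiable ℝ g)
    (hgT : ∀ w ∈ T, g w ∈ T) (hgT' : ∀ w ∈ T, g' w ∈ T) (hi : ∀ w ∈ T, g' (g w) = w)
    (hi' : ∀ w ∈ T, g (g' w) = w)
    (hB : ∀ z ∈ O, ∀ a c, B (fderiv ℝ g (Ψ z) (fderiv ℝ Ψ z a)) (fderiv ℝ g (Ψ z) (fderiv ℝ Ψ z c))
      = B (fderiv ℝ Ψ z a) (fderiv ℝ Ψ z c))
    {C : Set G} (hC : MeasurableSet C) (hCV' : C ⊆ V') (hCV : ∀ w ∈ T, g w ∈ C → w ∈ V) :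
    mloc B b μM O Ψ (g ⁻¹' C) = mloc B b μM O' Ψ' C := by
  have hgm : Measurable g := hg.continuous.measurable
  rw [h.mloc_apply B b μM (hgm hC), h'.mloc_apply B b μM hC]
  set D : Set M := Ψ ⁻¹' (g ⁻¹' C) ∩ O with hD
  set θ : M → M := fun z => κ' (g (Ψ z)) with hθ
  have hz : ∀ z ∈ D, θ z ∈ O' ∧ Ψ' (θ z) = g (Ψ z) := by
    intro z hz
    exact h'.right _ (hgT _ (h.mem z hz.2)) (hCV' hz.1)
  have himg : θ '' D = Ψ' ⁻¹' C ∩ O' := by
    ext y
    constructor
    · rintro ⟨z, hzD, rfl⟩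
      obtain ⟨h1, h2⟩ := hz z hzD
      refine ⟨?_, h1⟩
      show Ψ' (θ z) ∈ C
      rw [h2]; exact hzD.1
    · rintro ⟨h1, h2⟩
      have h3 : Ψ' y ∈ T := h'.mem y h2
      have h4 : g' (Ψ' y) ∈ T := hgT' _ h3
      have h5 : g (g' (Ψ' y)) = Ψ' y := hi' _ h3
      obtain ⟨h6, h7⟩ := h.right _ h4 (hCV _ h4 (by rw [h5]; exact h1))
      refine ⟨κ (g' (Ψ' y)), ⟨?_, h6⟩, ?_⟩
      · show g (Ψ (κ (g' (Ψ' y)))) ∈ C
        rw [h7, h5]; exact h1
      · show κ' (g (Ψ (κ (g' (Ψ' y))))) = y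
        rw [h7, h5, h'.left y h2]
  have hinj : InjOn θ D := by
    intro z₁ h₁ z₂ h₂ h12
    have h3 : g (Ψ z₁) = g (Ψ z₂) := by rw [← (hz z₁ h₁).2, ← (hz z₂ h₂).2, h12]
    have h4 : Ψ z₁ = Ψ z₂ := by
      rw [← hi _ (h.mem z₁ h₁.2), ← hi _ (h.mem z₂ h₂.2), h3]
    rw [← h.left z₁ h₁.2, ← h.left z₂ h₂.2, h4]
  have hDm : MeasurableSet D := measurableSet_inter_preimage h.isOpen h.smooth.continuousOn (hgm hC)
  have htr := fun z (hzD : z ∈ D) => h.trans h' hg hgT hzD.2 (hCV' hzD.1)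
  rw [← himg, lintegral_image_eq_lintegral_abs_det_fderiv_mul μM hDm
    (fun z hzD => (htr z hzD).2.2.1.hasFDerivWithinAt) hinj]
  refine setLIntegral_congr_fun hDm fun z hzD => ?_
  obtain ⟨-, -, -, h4⟩ := htr z hzD
  have h5 : dens B b (fderiv ℝ Ψ z)
      = |(κ' ∘L (fderiv ℝ g (Ψ z)) ∘L (fderiv ℝ Ψ z)).det| * dens B b (fderiv ℝ Ψ' (θ z)) := by
    rw [← dens_comp]
    refine dens_congr B b fun a c => ?_
    rw [← hB z hzD.2 a c]
    show _ = B (fderiv ℝ Ψ' (θ z) (κ' (fderiv ℝ g (Ψ z) (fderiv ℝ Ψ z a))))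
      (fderiv ℝ Ψ' (θ z) (κ' (fderiv ℝ g (Ψ z) (fderiv ℝ Ψ z c))))
    rw [h4 a, h4 c]
  show ENNReal.ofReal _ = ENNReal.ofReal _ * ENNReal.ofReal _
  rw [h5, ENNReal.ofReal_mul (abs_nonneg _)]

end measure

end Pool.Agent.H59.LV
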