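import Pool.Agent.H59.LV.Density

/-!
# The global measure of a bilinear form on a compact part of a patched set
-/

set_option autoImplicit false

open scoped Topology ContDiff ENNReal
open Set Filter MeasureTheory

namespace Pool.Agent.H59.LV

variable {G M ι : Type*} [NormedAddCommGroup G] [NormedSpace ℝ G]
  [NormedAddCommGroup M] [NormedSpace ℝ M] [FiniteDimensional ℝ M] [Fintype ι] [DecidableEq ι]
  [MeasurableSpace G] [BorelSpace G] [MeasurableSpace M] [BorelSpace M]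

variable (B : G →L[ℝ] G →L[ℝ] ℝ) (b : Module.Basis ι ℝ M) (μM : Measure M) [μM.IsAddHaarMeasure]

variable {T X : Set G} {O O' : Set M} {Ψ Ψ' : M → G} {κ κ' : G →L[ℝ] M} {V V' : Set G}

/-- Every point of a patch has a smaller patch with finite measure. -/
theorem Patch.exists_finite (h : Patch T O Ψ κ V) {w : G} (hw : w ∈ T) (hwV : w ∈ V) :
    ∃ (O' : Set M) (V' : Set G), Patch T O' Ψ κ V' ∧ w ∈ V' ∧ mloc B b μM O' Ψ univ < ⊤ := by
  obtain ⟨h1, h2⟩ := h.right w hw hwV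
  have hfd : ContinuousOn (fderiv ℝ Ψ) O :=
    h.smooth.continuousOn_fderiv_of_isOpen h.isOpen (by simp)
  have hc : ContinuousOn (fun z => dens B b (fderiv ℝ Ψ z)) O :=
    (continuous_dens B b).comp_continuousOn hfd
  set c := dens B b (fderiv ℝ Ψ (κ w)) + 1 with hcdef
  have hO1 : IsOpen (O ∩ (fun z => dens B b (fderiv ℝ Ψ z)) ⁻¹' (Iio c)) :=
    hc.isOpen_inter_preimage h.isOpen isOpen_Iio
  set U := (O ∩ (fun z => dens B b (fderiv ℝ Ψ z)) ⁻¹' (Iio c)) ∩ Metric.ball (κ w) 1 with hU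
  have hUo : IsOpen U := hO1.inter Metric.isOpen_ball
  have hr := h.restrict hUo
  refine ⟨O ∩ U, V ∩ κ ⁻¹' U, hr, ⟨hwV, ⟨⟨h1, ?_⟩, Metric.mem_ball_self one_pos⟩⟩, ?_⟩
  · show dens B b (fderiv ℝ Ψ (κ w)) < c
    rw [hcdef]; linarith
  · rw [hr.mloc_apply B b μM MeasurableSet.univ, preimage_univ, univ_inter]
    calc ∫⁻ z in O ∩ U, ENNReal.ofReal (dens B b (fderiv ℝ Ψ z)) ∂μM
        ≤ ∫⁻ _ in O ∩ U, ENNReal.ofReal c ∂μM := by
          refine setLIntegral_mono' hr.isOpen.measurableSet fun z hz => ?_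
          exact ENNReal.ofReal_le_ofReal (le_of_lt hz.2.1.2)
      _ = ENNReal.ofReal c * μM (O ∩ U) := by
          rw [setLIntegral_const]
      _ < ⊤ := by
          refine ENNReal.mul_lt_top ENNReal.ofReal_lt_top ?_
          refine lt_of_le_of_lt (measure_mono ?_) (measure_ball_lt_top (x := κ w) (r := 1))
          intro z hz; exact hz.2.2

omit [FiniteDimensional ℝ M] [μM.IsAddHaarMeasure] in
/-- Two patches give the same measure on the common part. -/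
theorem mloc_eq_id [FiniteDimensional ℝ M] [μM.IsAddHaarMeasure] (h : Patch T O Ψ κ V)
    (h' : Patch T O' Ψ' κ' V') {C : Set G} (hC : MeasurableSet C)
    (hCV : C ⊆ V) (hCV' : C ⊆ V') :
    mloc B b μM O Ψ C = mloc B b μM O' Ψ' C := by
  have := mloc_eq B b μM h h' (g := id) (g' := id) differentiable_id (fun w hw => hw)
    (fun w hw => hw) (fun w _ => rfl) (fun w _ => rfl)
    (fun z _ a c => by simp) hC hCV' (fun w _ hw => hCV hw)
  simpa using this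

/-- The global measure. -/
theorem exists_measure (hX : IsCompact X) (hXT : X ⊆ T)
    (hloc : ∀ w ∈ X, ∃ (O : Set M) (Ψ : M → G) (κ : G →L[ℝ] M) (V : Set G),
      Patch T O Ψ κ V ∧ w ∈ V) :
    ∃ μ : Measure G, IsFiniteMeasure μ ∧ μ Xᶜ = 0 ∧
      ∀ (O : Set M) (Ψ : M → G) (κ : G →L[ℝ] M) (V : Set G), Patch T O Ψ κ V →
        ∀ C, MeasurableSet C → C ⊆ V → C ⊆ X → μ C = mloc B b μM O Ψ C := by
  have key : ∃ s', X ⊆ s' ∧ MeasurableSet s' ∧ ∃ μ : Measure G, IsFiniteMeasure μ ∧ μ s'ᶜ = 0 ∧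
      ∀ (O : Set M) (Ψ : M → G) (κ : G →L[ℝ] M) (V : Set G), Patch T O Ψ κ V →
        ∀ C, MeasurableSet C → C ⊆ V → C ⊆ s' → μ C = mloc B b μM O Ψ C := by
    refine hX.induction_on (p := fun s => ∃ s', s ⊆ s' ∧ MeasurableSet s' ∧
      ∃ μ : Measure G, IsFiniteMeasure μ ∧ μ s'ᶜ = 0 ∧
      ∀ (O : Set M) (Ψ : M → G) (κ : G →L[ℝ] M) (V : Set G), Patch T O Ψ κ V →
        ∀ C, MeasurableSet C → C ⊆ V → C ⊆ s' → μ C = mloc B b μM O Ψ C) ?_ ?_ ?_ ?_
    · refine ⟨∅, Subset.rfl, MeasurableSet.empty, 0, inferInstance, by simp, ?_⟩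
      intro O Ψ κ V _ C _ _ hC
      rw [subset_empty_iff.1 hC]; simp
    · rintro s t hst ⟨s', h1, h2⟩
      exact ⟨s', hst.trans h1, h2⟩
    · rintro s t ⟨s', h1, h2, μ₁, h3, h4, h5⟩ ⟨t', k1, k2, μ₂, k3, k4, k5⟩
      refine ⟨s' ∪ t', union_subset_union h1 k1, h2.union k2, μ₁ + μ₂.restrict s'ᶜ, inferInstance,
        ?_, ?_⟩
      · rw [Measure.add_apply, Measure.restrict_apply (h2.union k2).compl]
        have e1 : μ₁ (s' ∪ t')ᶜ = 0 :=
          measure_mono_null (compl_subset_compl.2 subset_union_left) h4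
        have e2 : μ₂ ((s' ∪ t')ᶜ ∩ s'ᶜ) = 0 :=
          measure_mono_null (inter_subset_left.trans (compl_subset_compl.2 subset_union_right)) k4
        rw [e1, e2, add_zero]
      · intro O Ψ κ V hP C hC hCV hCs
        rw [Measure.add_apply, Measure.restrict_apply hC]
        have e1 : μ₁ C = mloc B b μM O Ψ (C ∩ s') := by
          rw [← h5 O Ψ κ V hP (C ∩ s') (hC.inter h2) (inter_subset_left.trans hCV)
            inter_subset_right, ← measure_inter_add_sdiff C h2,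
            measure_mono_null (sdiff_subset_compl _ _) h4, add_zero]
        have e2 : μ₂ (C ∩ s'ᶜ) = mloc B b μM O Ψ (C \ s') := by
          rw [← sdiff_eq]
          refine k5 O Ψ κ V hP (C \ s') (hC.diff h2) (sdiff_subset.trans hCV) ?_
          intro w hw
          exact (hCs hw.1).resolve_left hw.2
        rw [e1, e2, measure_inter_add_sdiff C h2]
    · intro w hw
      obtain ⟨O₀, Ψ, κ, V₀, hP₀, hwV₀⟩ := hloc w hw
      obtain ⟨O, V, hP, hwV, hfin⟩ := hP₀.exists_finite B b μM (hXT hw) hwV₀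
      refine ⟨V, mem_nhdsWithin_of_mem_nhds (hP.V_open.mem_nhds hwV), V, Subset.rfl,
        hP.V_open.measurableSet, mloc B b μM O Ψ, ⟨hfin⟩, ?_, ?_⟩
      · rw [hP.mloc_apply B b μM hP.V_open.measurableSet.compl]
        have : Ψ ⁻¹' Vᶜ ∩ O = ∅ := by
          ext z
          constructor
          · rintro ⟨h1, h2⟩
            exact absurd (hP.maps z h2) h1
          · intro h; exact absurd h (notMem_empty z)
        rw [this]; simp
      · intro O' Ψ' κ' V' hP' C hC hCV' hCV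
        exact mloc_eq_id B b μM hP hP' hC hCV hCV'
  obtain ⟨s', h1, h2, μ, h3, h4, h5⟩ := key
  refine ⟨μ.restrict X, inferInstance, ?_, ?_⟩
  · rw [Measure.restrict_apply hX.isClosed.measurableSet.compl]
    simp
  · intro O Ψ κ V hP C hC hCV hCX
    rw [Measure.restrict_apply hC, inter_eq_left.2 hCX]
    exact h5 O Ψ κ V hP C hC hCV (hCX.trans h1)

/-- The global measure is invariant under the maps which preserve `B`. -/
theorem measurePreserving (hX : IsCompact X) (hXT : X ⊆ T)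
    (hloc : ∀ w ∈ X, ∃ (O : Set M) (Ψ : M → G) (κ : G →L[ℝ] M) (V : Set G),
      Patch T O Ψ κ V ∧ w ∈ V) {μ : Measure G} [IsFiniteMeasure μ] (hμX : μ Xᶜ = 0)
    (hμ : ∀ (O : Set M) (Ψ : M → G) (κ : G →L[ℝ] M) (V : Set G), Patch T O Ψ κ V →
        ∀ C, MeasurableSet C → C ⊆ V → C ⊆ X → μ C = mloc B b μM O Ψ C)
    {g g' : G → G} (hg : Differentiable ℝ g) (hg' : Continuous g')
    (hgT : ∀ w ∈ T, g w ∈ T) (hgT' : ∀ w ∈ T, g' w ∈ T) (hi : ∀ w ∈ T, g' (g w) = w)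
    (hi' : ∀ w ∈ T, g (g' w) = w) (hgX : ∀ w ∈ X, g w ∈ X) (hgX' : ∀ w ∈ X, g' w ∈ X)
    (hB : ∀ (O : Set M) (Ψ : M → G) (κ : G →L[ℝ] M) (V : Set G), Patch T O Ψ κ V →
      ∀ z ∈ O, ∀ a c, B (fderiv ℝ g (Ψ z) (fderiv ℝ Ψ z a)) (fderiv ℝ g (Ψ z) (fderiv ℝ Ψ z c))
      = B (fderiv ℝ Ψ z a) (fderiv ℝ Ψ z c)) :
    MeasurePreserving g μ μ := by
  have hgm : Measurable g := hg.continuous.measurable
  have hXm : MeasurableSet X := hX.isClosed.measurableSet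
  have key : ∃ s', X ⊆ s' ∧ MeasurableSet s' ∧ ∀ C, MeasurableSet C → C ⊆ s' →
      μ (g ⁻¹' C) = μ C := by
    refine hX.induction_on (p := fun s => ∃ s', s ⊆ s' ∧ MeasurableSet s' ∧
      ∀ C, MeasurableSet C → C ⊆ s' → μ (g ⁻¹' C) = μ C) ?_ ?_ ?_ ?_
    · refine ⟨∅, Subset.rfl, MeasurableSet.empty, ?_⟩
      intro C _ hC
      rw [subset_empty_iff.1 hC]; simp
    · rintro s t hst ⟨s', h1, h2⟩
      exact ⟨s', hst.trans h1, h2⟩
    · rintro s t ⟨s', h1, h2, h3⟩ ⟨t', k1, k2, k3⟩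
      refine ⟨s' ∪ t', union_subset_union h1 k1, h2.union k2, ?_⟩
      intro C hC hCs
      rw [← measure_inter_add_sdiff C h2, ← measure_inter_add_sdiff (g ⁻¹' C) (hgm h2),
        ← preimage_inter, ← preimage_sdiff, h3 _ (hC.inter h2) inter_subset_right]
      rw [k3 _ (hC.diff h2) fun w hw => (hCs hw.1).resolve_left hw.2]
    · intro x hx
      obtain ⟨O', Ψ', κ', V', hP', hxV'⟩ := hloc x hx
      obtain ⟨O, Ψ, κ, V, hP, hxV⟩ := hloc (g' x) (hgX' x hx)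
      refine ⟨(V' ∩ g' ⁻¹' V) ∩ X, ?_, (V' ∩ g' ⁻¹' V) ∩ X, Subset.rfl, ?_, ?_⟩
      · exact inter_mem (mem_nhdsWithin_of_mem_nhds
          ((hP'.V_open.inter (hP.V_open.preimage hg')).mem_nhds ⟨hxV', hxV⟩))
          self_mem_nhdsWithin
      · exact (hP'.V_open.inter (hP.V_open.preimage hg')).measurableSet.inter hXm
      · intro C hC hCs
        have hpre : ∀ w ∈ T, g w ∈ C → w ∈ V := by
          intro w hw hgw
          have h1 := (hCs hgw).1.2
          have h2 : g' (g w) ∈ V := h1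
          rw [hi w hw] at h2; exact h2
        have hpreX : ∀ w ∈ T, g w ∈ C → w ∈ X := by
          intro w hw hgw
          have h2 := hgX' _ (hCs hgw).2
          rw [hi w hw] at h2; exact h2
        have e1 : μ (g ⁻¹' C) = μ (g ⁻¹' C ∩ X) := by
          rw [← measure_inter_add_sdiff (g ⁻¹' C) hXm,
            measure_mono_null (sdiff_subset_compl _ _) hμX, add_zero]
        have e2 : μ (g ⁻¹' C ∩ X) = mloc B b μM O Ψ (g ⁻¹' C ∩ X) :=
          hμ O Ψ κ V hP _ ((hgm hC).inter hXm) (fun w hw => hpre w (hXT hw.2) hw.1)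
            inter_subset_right
        have e3 : mloc B b μM O Ψ (g ⁻¹' C ∩ X) = mloc B b μM O Ψ (g ⁻¹' C) := by
          rw [hP.mloc_apply B b μM ((hgm hC).inter hXm), hP.mloc_apply B b μM (hgm hC)]
          have : Ψ ⁻¹' (g ⁻¹' C ∩ X) ∩ O = Ψ ⁻¹' (g ⁻¹' C) ∩ O := by
            ext z
            constructor
            · rintro ⟨h1, h2⟩; exact ⟨h1.1, h2⟩
            · rintro ⟨h1, h2⟩; exact ⟨⟨h1, hpreX _ (hP.mem z h2) h1⟩, h2⟩
          rw [this]
        have e4 : mloc B b μM O Ψ (g ⁻¹' C) = mloc B b μM O' Ψ' C :=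
          mloc_eq B b μM hP hP' hg hgT hgT' hi hi' (hB O Ψ κ V hP) hC
            (fun w hw => (hCs hw).1.1) hpre
        have e5 : μ C = mloc B b μM O' Ψ' C :=
          hμ O' Ψ' κ' V' hP' C hC (fun w hw => (hCs hw).1.1) (fun w hw => (hCs hw).2)
        rw [e1, e2, e3, e4, e5]
  obtain ⟨s', h1, h2, h3⟩ := key
  refine ⟨hgm, Measure.ext fun C hC => ?_⟩
  rw [Measure.map_apply hgm hC, ← measure_inter_add_sdiff C hXm,
    ← measure_inter_add_sdiff (g ⁻¹' C) (hgm hXm), ← preimage_inter, ← preimage_sdiff,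
    h3 _ (hC.inter hXm) (inter_subset_right.trans h1),
    measure_mono_null (sdiff_subset_compl _ _) hμX]
  congr 1
  refine measure_mono_null ?_ hμX
  intro w hw hwX
  exact hw.2 (hgX w hwX)

/-- Positivity of the global measure. -/
theorem measure_pos {μ : Measure G} (hXm : MeasurableSet X)
    (hμ : ∀ (O : Set M) (Ψ : M → G) (κ : G →L[ℝ] M) (V : Set G), Patch T O Ψ κ V →
        ∀ C, MeasurableSet C → C ⊆ V → C ⊆ X → μ C = mloc B b μM O Ψ C)
    (h : Patch T O Ψ κ V) (hd : ∀ z ∈ O, 0 < dens B b (fderiv ℝ Ψ z))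
    {I O₁ : Set G} (hI : IsOpen I) (hIX : T ∩ I ⊆ X) (hO₁ : IsOpen O₁) {w : G} (hw : w ∈ T)
    (hwV : w ∈ V) (hwI : w ∈ I) (hwO : w ∈ O₁) : 0 < μ O₁ := by
  have hopen : IsOpen (O₁ ∩ I ∩ V) := (hO₁.inter hI).inter h.V_open
  have h1 : μ (O₁ ∩ I ∩ V ∩ X) = mloc B b μM O Ψ (O₁ ∩ I ∩ V ∩ X) :=
    hμ O Ψ κ V h _ (hopen.measurableSet.inter hXm) (fun w hw => hw.1.2) (fun w hw => hw.2)
  have h2 : 0 < mloc B b μM O Ψ (O₁ ∩ I ∩ V ∩ X) := by
    rw [h.mloc_apply B b μM (hopen.measurableSet.inter hXm)]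
    have hset : Ψ ⁻¹' (O₁ ∩ I ∩ V ∩ X) ∩ O = O ∩ Ψ ⁻¹' (O₁ ∩ I ∩ V) := by
      ext z
      constructor
      · rintro ⟨h1, h2⟩; exact ⟨h2, h1.1⟩
      · rintro ⟨h1, h2⟩; exact ⟨⟨h2, hIX ⟨h.mem z h1, h2.1.2⟩⟩, h1⟩
    have ho : IsOpen (O ∩ Ψ ⁻¹' (O₁ ∩ I ∩ V)) :=
      h.smooth.continuousOn.isOpen_inter_preimage h.isOpen hopen
    have hne : (O ∩ Ψ ⁻¹' (O₁ ∩ I ∩ V)).Nonempty := by
      obtain ⟨k1, k2⟩ := h.right w hw hwV
      refine ⟨κ w, k1, ?_⟩
      show Ψ (κ w) ∈ O₁ ∩ I ∩ V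
      rw [k2]; exact ⟨⟨hwO, hwI⟩, hwV⟩
    rw [hset]
    obtain ⟨z₀, hz₀⟩ := hne
    have hfd : ContinuousOn (fderiv ℝ Ψ) O :=
      h.smooth.continuousOn_fderiv_of_isOpen h.isOpen (by simp)
    have hc : ContinuousOn (fun z => dens B b (fderiv ℝ Ψ z)) O :=
      (continuous_dens B b).comp_continuousOn hfd
    have hc0 := hd z₀ hz₀.1
    set c := dens B b (fderiv ℝ Ψ z₀) / 2 with hcdef
    have hcp : 0 < c := by rw [hcdef]; linarith
    have hU : IsOpen ((O ∩ Ψ ⁻¹' (O₁ ∩ I ∩ V)) ∩ (fun z => dens B b (fderiv ℝ Ψ z)) ⁻¹' (Ioi c)) :=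
      (hc.mono inter_subset_left).isOpen_inter_preimage ho isOpen_Ioi
    set U := (O ∩ Ψ ⁻¹' (O₁ ∩ I ∩ V)) ∩ (fun z => dens B b (fderiv ℝ Ψ z)) ⁻¹' (Ioi c) with hUdef
    have hUne : U.Nonempty := ⟨z₀, hz₀, by
      show c < dens B b (fderiv ℝ Ψ z₀)
      rw [hcdef]; linarith⟩
    calc 0 < ENNReal.ofReal c * μM U :=
          ENNReal.mul_pos (ENNReal.ofReal_pos.2 hcp).ne' (hU.measure_pos μM hUne).ne'
      _ = ∫⁻ _ in U, ENNReal.ofReal c ∂μM := by rw [setLIntegral_const]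
      _ ≤ ∫⁻ z in U, ENNReal.ofReal (dens B b (fderiv ℝ Ψ z)) ∂μM := by
          refine setLIntegral_mono' hU.measurableSet fun z hz => ?_
          exact ENNReal.ofReal_le_ofReal (le_of_lt hz.2)
      _ ≤ ∫⁻ z in O ∩ Ψ ⁻¹' (O₁ ∩ I ∩ V), ENNReal.ofReal (dens B b (fderiv ℝ Ψ z)) ∂μM :=
          lintegral_mono_set inter_subset_left
  exact lt_of_lt_of_le (h1 ▸ h2) (measure_mono fun w hw => hw.1.1.1)

end Pool.Agent.H59.LV
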