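import Pool.Agent.H91.GS.IFT
import Pool.Agent.H91.GE.GFlow

/-!
# Patches (local parametrisations with a linear left inverse), charts of `S` and of `TSet S`
-/

set_option autoImplicit false

open scoped InnerProductSpace Topology ContDiff
open Set Filter

namespace Pool.Agent.H59.LV

open Pool.Agent.H91.GE

section patch

variable {G M : Type*} [NormedAddCommGroup G] [NormedSpace ℝ G]
  [NormedAddCommGroup M] [NormedSpace ℝ M]

/-- A smooth parametrisation `Ψ : O → T` of the part of `T` in the open set `V`, with the linear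
left inverse `κ`. -/
structure Patch (T : Set G) (O : Set M) (Ψ : M → G) (κ : G →L[ℝ] M) (V : Set G) : Prop where
  isOpen : IsOpen O
  smooth : ContDiffOn ℝ ∞ Ψ O
  mem : ∀ z ∈ O, Ψ z ∈ T
  left : ∀ z ∈ O, κ (Ψ z) = z
  V_open : IsOpen V
  maps : ∀ z ∈ O, Ψ z ∈ V
  right : ∀ w ∈ T, w ∈ V → κ w ∈ O ∧ Ψ (κ w) = w

variable {T : Set G} {O : Set M} {Ψ : M → G} {κ : G →L[ℝ] M} {V : Set G}

theorem Patch.hasFDerivAt (h : Patch T O Ψ κ V) {z : M} (hz : z ∈ O) :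
    HasFDerivAt Ψ (fderiv ℝ Ψ z) z :=
  (((h.smooth z hz).contDiffAt (h.isOpen.mem_nhds hz)).differentiableAt (by simp)).hasFDerivAt

theorem Patch.κ_fderiv (h : Patch T O Ψ κ V) {z : M} (hz : z ∈ O) (a : M) :
    κ (fderiv ℝ Ψ z a) = a := by
  have h1 : HasFDerivAt (fun z => κ (Ψ z)) (κ ∘L fderiv ℝ Ψ z) z :=
    κ.hasFDerivAt.comp z (h.hasFDerivAt hz)
  have h2 : (fun z => κ (Ψ z)) =ᶠ[𝓝 z] fun z => z := by
    filter_upwards [h.isOpen.mem_nhds hz] with y hy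
    exact h.left y hy
  have h3 := h1.unique ((hasFDerivAt_id z).congr_of_eventuallyEq h2)
  exact congrArg (fun L : M →L[ℝ] M => L a) h3

/-- Restriction of a patch to a smaller open set. -/
theorem Patch.restrict (h : Patch T O Ψ κ V) {O' : Set M} (hO' : IsOpen O') :
    Patch T (O ∩ O') Ψ κ (V ∩ κ ⁻¹' O') where
  isOpen := h.isOpen.inter hO'
  smooth := h.smooth.mono inter_subset_left
  mem := fun z hz => h.mem z hz.1
  left := fun z hz => h.left z hz.1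
  V_open := h.V_open.inter (hO'.preimage κ.continuous)
  maps := fun z hz => ⟨h.maps z hz.1, by
    show κ (Ψ z) ∈ O'
    rw [h.left z hz.1]; exact hz.2⟩
  right := fun w hw hV => ⟨⟨(h.right w hw hV.1).1, hV.2⟩, (h.right w hw hV.1).2⟩

/-- Restriction of a patch to an open subset of `T`. -/
theorem Patch.inter (h : Patch T O Ψ κ V) {V' : Set G} (hV' : IsOpen V') :
    Patch (T ∩ V') (O ∩ Ψ ⁻¹' V') Ψ κ V where
  isOpen := h.smooth.continuousOn.isOpen_inter_preimage h.isOpen hV'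
  smooth := h.smooth.mono inter_subset_left
  mem := fun z hz => ⟨h.mem z hz.1, hz.2⟩
  left := fun z hz => h.left z hz.1
  V_open := h.V_open
  maps := fun z hz => h.maps z hz.1
  right := fun w hw hV => ⟨⟨(h.right w hw.1 hV).1, by
    show Ψ (κ w) ∈ V'
    rw [(h.right w hw.1 hV).2]; exact hw.2⟩, (h.right w hw.1 hV).2⟩

variable {G' M' : Type*} [NormedAddCommGroup G'] [NormedSpace ℝ G']
  [NormedAddCommGroup M'] [NormedSpace ℝ M']
  {T' : Set G'} {O' : Set M'} {Ψ' : M' → G'} {κ' : G' →L[ℝ] M'} {V' : Set G'}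

/-- A map in two patches. -/
theorem Patch.trans (h : Patch T O Ψ κ V) (h' : Patch T' O' Ψ' κ' V') {g : G → G'}
    (hg : Differentiable ℝ g) (hT : ∀ w ∈ T, g w ∈ T') {z : M} (hz : z ∈ O)
    (hgz : g (Ψ z) ∈ V') :
    κ' (g (Ψ z)) ∈ O' ∧ Ψ' (κ' (g (Ψ z))) = g (Ψ z) ∧
      HasFDerivAt (fun z => κ' (g (Ψ z)))
        (κ' ∘L (fderiv ℝ g (Ψ z)) ∘L (fderiv ℝ Ψ z)) z ∧
      ∀ a, fderiv ℝ Ψ' (κ' (g (Ψ z))) (κ' (fderiv ℝ g (Ψ z) (fderiv ℝ Ψ z a)))
        = fderiv ℝ g (Ψ z) (fderiv ℝ Ψ z a) := by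
  obtain ⟨h1, h2⟩ := h'.right _ (hT _ (h.mem z hz)) hgz
  have h3 : HasFDerivAt (fun z => g (Ψ z)) ((fderiv ℝ g (Ψ z)) ∘L (fderiv ℝ Ψ z)) z :=
    (hg (Ψ z)).hasFDerivAt.comp z (h.hasFDerivAt hz)
  have h4 : HasFDerivAt (fun z => κ' (g (Ψ z)))
      (κ' ∘L (fderiv ℝ g (Ψ z)) ∘L (fderiv ℝ Ψ z)) z := κ'.hasFDerivAt.comp z h3
  refine ⟨h1, h2, h4, fun a => ?_⟩
  have h5 : HasFDerivAt (fun z => Ψ' (κ' (g (Ψ z))))
      ((fderiv ℝ Ψ' (κ' (g (Ψ z)))) ∘L (κ' ∘L (fderiv ℝ g (Ψ z)) ∘L (fderiv ℝ Ψ z))) z :=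
    HasFDerivAt.comp z (g := Ψ') (h'.hasFDerivAt h1) h4
  have h6 : (fun z => Ψ' (κ' (g (Ψ z)))) =ᶠ[𝓝 z] fun z => g (Ψ z) := by
    have h7 : ∀ᶠ y in 𝓝 z, g (Ψ y) ∈ V' := h3.continuousAt.preimage_mem_nhds
      (h'.V_open.mem_nhds hgz)
    filter_upwards [h.isOpen.mem_nhds hz, h7] with y hy hy'
    exact (h'.right _ (hT _ (h.mem y hy)) hy').2
  have h7 := h5.unique (h3.congr_of_eventuallyEq h6)
  exact congrArg (fun L : M →L[ℝ] G' => L a) h7

end patch

theorem two_le_top' : (2 : WithTop ℕ∞) ≤ ∞ := by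
  have h : ((2 : ℕ∞) : WithTop ℕ∞) ≤ ((⊤ : ℕ∞) : WithTop ℕ∞) := by exact_mod_cast le_top
  simpa using h

section chart

variable {E F N : Type*} [NormedAddCommGroup E] [InnerProductSpace ℝ E] [FiniteDimensional ℝ E]
  [NormedAddCommGroup F] [InnerProductSpace ℝ F] [FiniteDimensional ℝ F]
  [NormedAddCommGroup N] [NormedSpace ℝ N] [FiniteDimensional ℝ N]

theorem exists_patch (hdim : Module.finrank ℝ E = Module.finrank ℝ F + Module.finrank ℝ N)
    {S U : Set E} {f : E → F} (hf : IsLoc S U f) {p : E} (hpU : p ∈ U) :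
    ∃ (Ω : Set N) (ψ : N → E) (P : E →L[ℝ] N) (W : Set E), Patch S Ω ψ P W ∧ p ∈ W := by
  set L : E →L[ℝ] F := fderiv ℝ f p with hLdef
  have hL : Function.Surjective L := hf.surj p hpU
  set Kr : Submodule ℝ E := LinearMap.ker L.toLinearMap with hKr
  have hk : Module.finrank ℝ Kr = Module.finrank ℝ N := by
    have h2 := LinearMap.finrank_range_add_finrank_ker L.toLinearMap
    have h3 : LinearMap.range L.toLinearMap = ⊤ := LinearMap.range_eq_top.2 hL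
    rw [h3, finrank_top, hdim, ← hKr] at h2
    omega
  let e : Kr ≃L[ℝ] N := ContinuousLinearEquiv.ofFinrankEq hk
  let P : E →L[ℝ] N := (e : Kr →L[ℝ] N) ∘L Kr.orthogonalProjectionOnto
  have hPk : ∀ v : E, L v = 0 → P v = 0 → v = 0 := by
    intro v hv hPv
    have h1 : v ∈ Kr := hv
    have h2 : Kr.orthogonalProjectionOnto v = 0 := e.injective (by rw [map_zero]; exact hPv)
    have h3 : Kr.orthogonalProjectionOnto v = ⟨v, h1⟩ :=
      Submodule.orthogonalProjectionOnto_mem_subspace_eq_self (⟨v, h1⟩ : Kr)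
    rw [h3] at h2
    exact congrArg Subtype.val h2
  let G : E → F × N := fun q => (f q, P q)
  have hGc : ContDiffOn ℝ ∞ G U := hf.smooth.prodMk P.contDiff.contDiffOn
  have hGd : fderiv ℝ G p = L.prod P :=
    ((hasFDerivAt_of_open hf.isOpen hf.smooth hpU).prodMk P.hasFDerivAt).fderiv
  have hinj : Function.Injective (L.prod P : E →L[ℝ] F × N) := by
    refine (injective_iff_map_eq_zero _).2 fun v hv => ?_
    exact hPk v (congrArg Prod.fst hv) (congrArg Prod.snd hv)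
  have hbij : Function.Bijective (fderiv ℝ G p) := by
    rw [hGd]
    refine ⟨hinj, ?_⟩
    have h1 : Module.finrank ℝ E = Module.finrank ℝ (F × N) := by
      rw [Module.finrank_prod, hdim]
    exact (LinearMap.injective_iff_surjective_of_finrank_eq_finrank
      (f := (L.prod P).toLinearMap) h1).1 hinj
  obtain ⟨H, hHc, hpH, hHU, hHs, -⟩ := exists_inv hf.isOpen hGc hpU hbij
  let ι : N → F × N := fun x => (0, x)
  have hι : ContDiff ℝ ∞ ι := contDiff_const.prodMk contDiff_id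
  have hval : ∀ x, ι x ∈ H.target → f (H.symm (ι x)) = 0 ∧ P (H.symm (ι x)) = x := by
    intro x hx
    have h1 := H.right_inv hx
    rw [hHc] at h1
    exact ⟨congrArg Prod.fst h1, congrArg Prod.snd h1⟩
  refine ⟨ι ⁻¹' H.target, fun x => H.symm (ι x), P, H.source,
    ⟨H.open_target.preimage hι.continuous, hHs.comp hι.contDiffOn fun x hx => hx, ?_, ?_,
      H.open_source, ?_, ?_⟩, hpH⟩
  · intro x hx
    exact (hf.mem_iff (hHU (H.map_target hx))).2 (hval x hx).1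
  · intro x hx; exact (hval x hx).2
  · intro x hx; exact H.map_target hx
  · intro q hqS hq
    have h1 : H q = ι (P q) := by
      rw [hHc]
      show (f q, P q) = (0, P q)
      rw [(hf.mem_iff (hHU hq)).1 hqS]
    refine ⟨?_, ?_⟩
    · show ι (P q) ∈ H.target
      rw [← h1]; exact H.map_source hq
    · show H.symm (ι (P q)) = q
      rw [← h1]; exact H.left_inv hq

variable {S : Set E} {Ω : Set N} {ψ : N → E} {P : E →L[ℝ] N} {W : Set E}

omit [FiniteDimensional ℝ N] in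
theorem Patch.mem_TSet (hsub : IsSub F S) (h : Patch S Ω ψ P W) {x : N} (hx : x ∈ Ω) (v : N) :
    (ψ x, fderiv ℝ ψ x v) ∈ TSet S := by
  obtain ⟨U, hU, f, hf⟩ := hsub (ψ x) (h.mem x hx)
  refine (mem_TSet_iff hf hU).2 ⟨h.mem x hx, ?_⟩
  have h1 : HasFDerivAt (fun x => f (ψ x)) (fderiv ℝ f (ψ x) ∘L fderiv ℝ ψ x) x :=
    (hasFDerivAt_of_open hf.isOpen hf.smooth hU).comp x (h.hasFDerivAt hx)
  have h2 : (fun x => f (ψ x)) =ᶠ[𝓝 x] fun _ => 0 := by
    have h3 : ∀ᶠ y in 𝓝 x, ψ y ∈ U :=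
      (h.hasFDerivAt hx).continuousAt.preimage_mem_nhds (hf.isOpen.mem_nhds hU)
    filter_upwards [h3, h.isOpen.mem_nhds hx] with y hy hy'
    exact (hf.mem_iff hy).1 (h.mem y hy')
  have h3 := h1.unique ((hasFDerivAt_const (0 : F) x).congr_of_eventuallyEq h2)
  exact congrArg (fun L : N →L[ℝ] F => L v) h3

omit [FiniteDimensional ℝ E] [FiniteDimensional ℝ N] in
theorem Patch.of_TSet (h : Patch S Ω ψ P W) {q v : E} (hq : q ∈ W) (hv : (q, v) ∈ TSet S) :
    P q ∈ Ω ∧ ψ (P q) = q ∧ fderiv ℝ ψ (P q) (P v) = v := by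
  have hqS : q ∈ S := fst_mem_TSet hv
  obtain ⟨h1, h2⟩ := h.right q hqS hq
  refine ⟨h1, h2, ?_⟩
  obtain ⟨c, hc, hcS, hc0, hcd⟩ := hv
  have hc0' : c 0 = q := hc0
  have hcd' : deriv c 0 = v := hcd
  have h3 : HasDerivAt c v 0 := by
    rw [← hcd']; exact (hc.differentiable (by simp) 0).hasDerivAt
  have h4 : HasDerivAt (fun s => P (c s)) (P v) 0 := P.hasFDerivAt.comp_hasDerivAt (0 : ℝ) h3
  have h5 : HasDerivAt (fun s => ψ (P (c s))) (fderiv ℝ ψ (P q) (P v)) 0 := by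
    have h6 : HasFDerivAt ψ (fderiv ℝ ψ (P q)) (P (c 0)) := by
      rw [hc0']; exact h.hasFDerivAt h1
    exact h6.comp_hasDerivAt (0 : ℝ) h4
  have h7 : (fun s => ψ (P (c s))) =ᶠ[𝓝 0] c := by
    have h8 : ∀ᶠ s in 𝓝 (0 : ℝ), c s ∈ W :=
      hc.continuous.continuousAt.preimage_mem_nhds (by rw [hc0']; exact h.V_open.mem_nhds hq)
    filter_upwards [h8] with s hs
    exact (h.right (c s) (hcS s) hs).2
  exact h5.unique (h3.congr_of_eventuallyEq h7)

/-- The tangent map of a parametrisation. -/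
noncomputable def TP (ψ : N → E) (z : N × N) : E × E := (ψ z.1, fderiv ℝ ψ z.1 z.2)

omit [FiniteDimensional ℝ E] [FiniteDimensional ℝ N] in
theorem Patch.fderiv_smooth (h : Patch S Ω ψ P W) : ContDiffOn ℝ ∞ (fderiv ℝ ψ) Ω :=
  h.smooth.fderiv_of_isOpen h.isOpen (by norm_num)

omit [FiniteDimensional ℝ E] [FiniteDimensional ℝ N] in
theorem Patch.hasFDerivAt_fderiv (h : Patch S Ω ψ P W) {x : N} (hx : x ∈ Ω) :
    HasFDerivAt (fderiv ℝ ψ) (fderiv ℝ (fderiv ℝ ψ) x) x :=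
  (((h.fderiv_smooth x hx).contDiffAt (h.isOpen.mem_nhds hx)).differentiableAt
    (by simp)).hasFDerivAt

omit [FiniteDimensional ℝ E] [FiniteDimensional ℝ N] in
theorem Patch.symm2 (h : Patch S Ω ψ P W) {x : N} (hx : x ∈ Ω) (u v : N) :
    fderiv ℝ (fderiv ℝ ψ) x u v = fderiv ℝ (fderiv ℝ ψ) x v u := by
  have h1 : ContDiffAt ℝ ∞ ψ x := (h.smooth x hx).contDiffAt (h.isOpen.mem_nhds hx)
  exact (h1.isSymmSndFDerivAt (by
    rw [minSmoothness_of_isRCLikeNormedField]; exact two_le_top')) u v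

omit [FiniteDimensional ℝ E] [FiniteDimensional ℝ N] in
theorem Patch.fderiv_TP (h : Patch S Ω ψ P W) {z : N × N} (hz : z.1 ∈ Ω) (a : N × N) :
    fderiv ℝ (TP ψ) z a = (fderiv ℝ ψ z.1 a.1,
      fderiv ℝ (fderiv ℝ ψ) z.1 a.1 z.2 + fderiv ℝ ψ z.1 a.2) := by
  have h1 : HasFDerivAt (fun z : N × N => ψ z.1) (fderiv ℝ ψ z.1 ∘L ContinuousLinearMap.fst ℝ N N) z :=
    HasFDerivAt.comp z (g := ψ) (h.hasFDerivAt hz) hasFDerivAt_fst
  have h2 : HasFDerivAt (fun z : N × N => fderiv ℝ ψ z.1)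
      (fderiv ℝ (fderiv ℝ ψ) z.1 ∘L ContinuousLinearMap.fst ℝ N N) z :=
    HasFDerivAt.comp z (g := fderiv ℝ ψ) (h.hasFDerivAt_fderiv hz) hasFDerivAt_fst
  have h3 := h2.clm_apply (hasFDerivAt_snd (𝕜 := ℝ) (E := N) (F := N) (p := z))
  have h4 := h1.prodMk h3
  have h5 : fderiv ℝ (TP ψ) z = _ := h4.fderiv
  rw [h5]
  simp [add_comm]

omit [FiniteDimensional ℝ N] in
/-- The patch of `TSet S`. -/
theorem Patch.tangent (hsub : IsSub F S) (h : Patch S Ω ψ P W) :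
    Patch (TSet S) {z : N × N | z.1 ∈ Ω} (TP ψ) (P.prodMap P) {w : E × E | w.1 ∈ W} where
  isOpen := h.isOpen.preimage continuous_fst
  smooth := by
    have h1 : ContDiffOn ℝ ∞ (fun z : N × N => fderiv ℝ ψ z.1) {z : N × N | z.1 ∈ Ω} :=
      h.fderiv_smooth.comp contDiff_fst.contDiffOn fun z hz => hz
    exact (h.smooth.comp contDiff_fst.contDiffOn fun z hz => hz).prodMk
      (h1.clm_apply contDiff_snd.contDiffOn)
  mem := fun z hz => h.mem_TSet hsub hz z.2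
  left := fun z hz => Prod.ext (h.left _ hz) (h.κ_fderiv hz z.2)
  V_open := h.V_open.preimage continuous_fst
  maps := fun z hz => h.maps _ hz
  right := by
    rintro ⟨q, v⟩ hw hq
    obtain ⟨h1, h2, h3⟩ := h.of_TSet hq hw
    exact ⟨h1, Prod.ext h2 h3⟩

end chart

end Pool.Agent.H59.LV
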